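import Pool.Agent.Lib.MP_f82811_pr.TC.Gr

/-!
# The relaxation time is nondecreasing in the couplings of bridges and of edges of triangles in
cactus components

In particular it is nondecreasing in every coupling when all cycles of the graph have length three.
-/

set_option autoImplicit false

namespace Pool.Agent.Results.MP_f82811_pr.BridgesTriangles

open Pool.Agent.Lib.MP_f82811_pr

theorem result : ∀ (V : Type) [Fintype V] [DecidableEq V] (G : SimpleGraph V)
    [DecidableRel G.Adj] (J J' : Sym2 V → ℝ),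
    (∀ e ∈ G.edgeSet, 0 ≤ J e) → (∀ e ∈ G.edgeSet, J e ≤ J' e) →
    (∀ k l, G.Adj k l → J s(k, l) ≠ J' s(k, l) →
      G.IsBridge s(k, l) ∨ ((∃ m, G.Adj k m ∧ G.Adj l m) ∧ TC.CactusAt G k)) →
    gap (gibbs G J') ≤ gap (gibbs G J) := by
  intro V _ _ G _ J J' hJ hJJ' hbr
  rcases isEmpty_or_nonempty V with hV | hV
  · rw [gap_of_isEmpty, gap_of_isEmpty]
  · exact TC.gap_raise G hJ hJJ' hbr

end Pool.Agent.Results.MP_f82811_pr.BridgesTriangles
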