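import Pool.Agent.Lib.MP_f82811_pr.HF.Graph
import Pool.Agent.Lib.MP_f82811_pr.HT.Main

/-!
# High temperature: monotonicity of the relaxation time in the couplings

For every finite graph and all couplings `J ≤ J'`: full monotonicity as long as the row sums of
`J'` are at most `1 / 10` (the coupling of one edge `e₀` may moreover be raised without any
bound), and for row sums of `J'` up to `1 / 3` when the increments are spread over all edges.
-/

set_option autoImplicit false

namespace Pool.Agent.Results.MP_f82811_pr.HighTemperatureFull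

open Pool.Agent.Lib.MP_f82811_pr

theorem result : ∀ (V : Type) [Fintype V] [DecidableEq V] (G : SimpleGraph V)
    [DecidableRel G.Adj] (J J' : Sym2 V → ℝ) (e₀ : Sym2 V) (δ κ : ℝ),
    (∀ e ∈ G.edgeSet, 0 ≤ J e ∧ J e ≤ J' e) →
    ((∀ v, ∑ u ∈ G.neighborFinset v, Function.update J' e₀ (J e₀) s(v, u) ≤ 1 / 10) ∨
      (δ ≤ 1 / 3 ∧ (∀ v, ∑ u ∈ G.neighborFinset v, J' s(v, u) ≤ δ) ∧
        (∀ v, ∑ u ∈ G.neighborFinset v, (J' s(v, u) - J s(v, u)) ≤ κ) ∧
        ∀ e ∈ G.edgeSet, 15 / 2 * δ * κ * J' e ≤ J' e - J e)) →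
    gap (gibbs G J') ≤ gap (gibbs G J) := by
  intro V _ _ G _ J J' e₀ δ κ hJ h
  rcases h with hrow | ⟨hδ, hrow, hκ, hinc⟩
  · rcases isEmpty_or_nonempty V with hV | hV
    · rw [gap_of_isEmpty, gap_of_isEmpty]
    · exact HF.main G (fun e he => (hJ e he).1) (fun e he => (hJ e he).2) e₀ hrow
  · exact HT.high_temp G J J' δ κ hδ hJ hrow hκ hinc

end Pool.Agent.Results.MP_f82811_pr.HighTemperatureFull
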