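import Pool.Agent.Lib.MP_f82811_pr.LT.Mat

/-!
# Low temperature: monotonicity of the relaxation time in the couplings

For every finite graph and all couplings `J ≤ J'` the relaxation time at `J'` is at least the
relaxation time at `J` divided by `1 + err`, with an explicit error `err`: it is exponentially
small in the smallest cut of `J`, and it is zero if the cuts of `J` are large compared with the
logarithm of the number of vertices and all cuts of `J' - J` are bounded below.
-/

set_option autoImplicit false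

namespace Pool.Agent.Results.MP_f82811_pr.LowTemperature

open Finset Pool.Agent.Lib.MP_f82811_pr

theorem result : ∀ (V : Type) [Fintype V] [DecidableEq V] (G : SimpleGraph V)
    [DecidableRel G.Adj] (J J' : Sym2 V → ℝ) (κ δ : ℝ),
    (∀ e ∈ G.edgeSet, 0 ≤ J e ∧ J e ≤ J' e) → 0 ≤ δ →
    (∀ S : Finset V, S.Nonempty → S ≠ univ → κ ≤ LT.cut G J S ∧ δ ≤ LT.cut G (J' - J) S) →
    gap (gibbs G J') ≤ (1 + LT.err G J J' κ δ) * gap (gibbs G J) ∧
    (0 ≤ κ → 1 + LT.err G J J' κ δ ≤
      ((1 + Real.exp (-κ)) ^ Fintype.card V + (1 - Real.exp (-κ)) ^ Fintype.card V) / 2) ∧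
    (∀ R : ℝ, 1 ≤ R → (Fintype.card V : ℝ) ^ 2 * R ≤ Real.exp (2 * κ) →
      (∀ S : Finset V, S.Nonempty → S ≠ univ →
        κ * LT.cut G (J' - J) S ≤ R * δ * LT.cut G J S) →
      LT.err G J J' κ δ = 0) := by
  intro V _ _ G _ J J' κ δ hJ hδ0 hδ
  exact LT.graph_compare G J J' κ δ hJ hδ0 hδ

end Pool.Agent.Results.MP_f82811_pr.LowTemperature
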