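import Pool.Agent.Lib.MP_f82811_pr.OP.Pairs

/-!
# Rank one couplings (inhomogeneous Curie-Weiss model)

For the couplings `J_uv = a_u a_v`, `a ≥ 0`, the spectral gap of heat-bath Glauber dynamics is
nonincreasing in every `a_v`, at all temperatures, and it does not increase either if in addition
the coupling of one pair is raised further.
-/

set_option autoImplicit false

namespace Pool.Agent.Results.MP_f82811_pr.RankOne

open Pool.Agent.Lib.MP_f82811_pr

/-- Let `0 ≤ a ≤ b`, `J_uv = a_u a_v` for all `u ≠ v`, and `J'_uv = b_u b_v` for all `u ≠ v` except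
for one pair `k, l`, for which `J'_kl ≥ b_k b_l`. Then the gap for `J'` is at most the gap for
`J`. -/
theorem result : ∀ (V : Type) [Fintype V] [DecidableEq V] (a b : V → ℝ) (J J' : Sym2 V → ℝ)
    (k l : V), (∀ v, 0 ≤ a v) → (∀ v, a v ≤ b v) → k ≠ l →
    (∀ u v, u ≠ v → J s(u, v) = a u * a v) →
    (∀ u v, u ≠ v → s(u, v) ≠ s(k, l) → J' s(u, v) = b u * b v) → b k * b l ≤ J' s(k, l) →
    gap (gibbs ⊤ J') ≤ gap (gibbs ⊤ J) := by
  intro V _ _ a b J J' k l ha hab hkl hJ hJ' hle
  have : Nonempty V := ⟨k⟩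
  have hb : ∀ v, 0 ≤ b v := fun v => (ha v).trans (hab v)
  -- the diagonal values of the couplings play no role
  have hg : ∀ K K' : Sym2 V → ℝ, (∀ u v, u ≠ v → K s(u, v) = K' s(u, v)) →
      gap (gibbs ⊤ K) = gap (gibbs ⊤ K') := by
    intro K K' h
    have hm : HT.mat (⊤ : SimpleGraph V) K = HT.mat (⊤ : SimpleGraph V) K' := by
      funext u v
      rw [OP.mat_top, OP.mat_top]
      by_cases huv : u = v
      · rw [if_pos huv, if_pos huv]
      · rw [if_neg huv, if_neg huv, h u v huv]
    exact le_antisymm (OP.Pairs.gap_le (by rw [hm])) (OP.Pairs.gap_le (by rw [hm]))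
  classical
  let A : Sym2 V → ℝ := Sym2.lift ⟨fun u v => a u * a v, fun u v => mul_comm _ _⟩
  let B : Sym2 V → ℝ := Sym2.lift ⟨fun u v => b u * b v, fun u v => mul_comm _ _⟩
  let C : Sym2 V → ℝ := fun e => if e = s(k, l) then J' s(k, l) else B e
  have hA : ∀ u v, A s(u, v) = a u * a v := fun u v => rfl
  have hB : ∀ u v, B s(u, v) = b u * b v := fun u v => rfl
  have h1 : gap (gibbs ⊤ C) ≤ gap (gibbs ⊤ A) := by
    apply OP.Pairs.pair_raise V A B C k l
    · intro e
      induction e using Sym2.ind with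
      | _ u v => rw [hA]; exact mul_nonneg (ha u) (ha v)
    · exact hkl
    · intro e he
      exact if_neg he
    · have h0 : C s(k, l) = J' s(k, l) := if_pos rfl
      rw [h0]
      exact hle
    · exact Or.inr (Or.inl ⟨a, b, ha, hab, fun u v _ => hA u v, fun u v _ => hB u v⟩)
  have h2 : gap (gibbs ⊤ J') = gap (gibbs ⊤ C) := by
    apply hg
    intro u v huv
    by_cases h : s(u, v) = s(k, l)
    · rw [h]
      exact (if_pos rfl).symm
    · rw [hJ' u v huv h]
      exact (if_neg h).symm
  have h3 : gap (gibbs ⊤ J) = gap (gibbs ⊤ A) := by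
    apply hg
    intro u v huv
    rw [hA, hJ u v huv]
  rw [h2, h3]
  exact h1

end Pool.Agent.Results.MP_f82811_pr.RankOne
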